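import Pool.Agent.W187.UR.Np2
import Pool.Agent.W392.UR.Fac
import Pool.Agent.W371.UR.Full
import Pool.Agent.W125.UR.Sing
import Pool.Agent.W349.UR.NU
import Pool.Agent.W376.UR.HHm

/-!
# The analytic rank from the Birch and Swinnerton-Dyer products, without any hypothesis

Let `C : y² = x³ + a x + b` be an elliptic curve over `ℚ`, `a, b ∈ ℤ`, and let `N_p` be the number of
affine points modulo the good primes `p ∤ 2Δ`. Birch and Swinnerton-Dyer conjectured
`∏_{p ≤ X} (N_p + 1)/p ∼ C (log X)^rank`. With the sharp cut-off this implies the Riemann hypothesis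
for `L(C, s)` (Goldfeld 1982). Here, for real `c` and `X > 1`,

`S_c(X) = ∑_{p ∤ 2Δ} cos (c log p / log X) log ((N_p + 1)/p) / Γ(1 + log p / log X)`

(an absolutely convergent series). It is shown that there is a sharp transition at `c = π/2`:

* for every `c > π/2` and EVERY elliptic curve, `S_c(X) = m log log X + O(1)` with
  `m = ord_{s=1} L(C, s)`, without any hypothesis on the zeros of `L(C, s)`;
* for `0 ≤ c < π/2` this holds if and only if `L(C, s)` has no real zero `> 1`; if there is a real
  zero `β > 1`, then `S_c(X) ≥ exp(X^y)` for arbitrarily large `X`, for every `y < β - 1`.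

So for `c > π/2` the rank form of the Birch and Swinnerton-Dyer conjecture for `C` is equivalent to
`S_c(X) / log log X → rank C(ℚ)`, unconditionally.

Proof. `1/Γ(1 + v) = (2πi)⁻¹ ∫ exp(e^z) e^{-zv} dz` along the boundary of the half strip
`Re z ≥ a, |Im z| ≤ π` (Hankel), so that `S_c(e^T)` is, up to `O(1)`, the real part of the integral of
`exp(e^z) log L(C, 1 + (z - ic)/T)`. For `c > π/2` the function `exp(e^z)` is extremely small on the
line `Im z = c` on which `(z - ic)/T` is real, so the contour can be kept below all the real zeros.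
For `c < π/2` a real zero `1 + x₀` contributes `∫_0^∞ (e^{z₀u}/Γ(1+u) - e^{-u}) du/u` with
`z₀ = x₀T + ic`, which grows like `exp(e^{z₀} - z₀)`. The passage from `L(C, s)` to the numbers
`(N_p + 1)/p` uses Hasse's bound only. Everything is proved in the imported files (parts of the proof
by helpers 392, 371, 125, 349, 376; library of helpers 189 and 263).
-/

set_option autoImplicit false

namespace Pool.Agent.Results.MP_696deb_nt.AnalyticRankLaw

open Pool.Agent.W263.BSD Pool.Agent.W187.UR Filter Topology Classical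

/-- the rank of the group of rational points of `y² = x³ + a x + b` -/
noncomputable def rank (a b : ℤ) : ℕ :=
  Module.finrank ℤ
    (WeierstrassCurve.Affine.Point
      (WeierstrassCurve.toAffine
        ({ a₁ := 0, a₂ := 0, a₃ := 0, a₄ := (a : ℚ), a₆ := (b : ℚ) } : WeierstrassCurve ℚ)))

/-- **The rotated Birch and Swinnerton-Dyer sums: a law for every curve above the angle `π/2`, and
exactly for the curves without real zeros below.** -/
theorem result (a b : ℤ) (_hΔ : 4 * a ^ 3 + 27 * b ^ 2 ≠ 0) (F : ℂ → ℂ) (hF : IsLSeries a b F) :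
    (∀ c X : ℝ, 1 < X → Summable fun p : ℕ => |if GoodPrime a b p then
      Real.cos (c * (Real.log p / Real.log X)) * Real.log (((pointCount a b p : ℝ) + 1) / p) /
        Real.Gamma (1 + Real.log p / Real.log X) else 0|) ∧
    ∃ m : ℕ, analyticOrderAt F 1 = m ∧
      (∀ c : ℝ, Real.pi / 2 < c →
        (∃ M : ℝ, ∀ X : ℝ, 3 ≤ X → |rotSum a b c X - m * Real.log (Real.log X)| ≤ M) ∧
        (analyticOrderAt F 1 = (rank a b : ℕ∞) ↔
          Tendsto (fun X : ℝ => rotSum a b c X / Real.log (Real.log X)) atTop
            (𝓝 (rank a b : ℝ)))) ∧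
      ∀ c : ℝ, 0 ≤ c → c < Real.pi / 2 →
        ((∃ M : ℝ, ∀ X : ℝ, 3 ≤ X → |rotSum a b c X - m * Real.log (Real.log X)| ≤ M) ↔
          ∀ σ : ℝ, 1 < σ → F σ ≠ 0) ∧
        ∀ β : ℝ, 1 < β → F β = 0 → ∀ y < β - 1,
          ∃ᶠ X : ℝ in atTop, Real.exp (X ^ y) ≤ rotSum a b c X := by
  refine ⟨fun c X hX => rot_summable c hX, ?_⟩
  obtain ⟨m, hm⟩ := Pool.Agent.W189.ML.order_finite_all hF 1
  have hbel : S_BEL := bel Pool.Agent.W392.UR.fac
  have hHH : S_HH := Pool.Agent.W376.UR.hh Pool.Agent.W349.UR.nu
  have hsing : S_SING := Pool.Agent.W125.UR.sing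
  refine ⟨m, hm, fun c hc => ⟨rot_law hF hbel hm hc, ?_⟩, fun c hc0 hc =>
    ⟨low_iff Pool.Agent.W371.UR.full hsing hHH hF hm hc0 hc, fun β hβ hz y hy => ?_⟩⟩
  · have h1 := rot_tendsto hF hbel hm hc
    generalize rank a b = r
    rw [hm]
    constructor
    · intro h
      have h2 : m = r := by exact_mod_cast h
      rw [← h2]
      exact h1
    · intro h
      have h2 := tendsto_nhds_unique h1 h
      have h3 : m = r := by exact_mod_cast h2
      rw [h3]
  · refine ((rot_large hsing hHH hF hc0 hc hβ hz y hy).and_eventually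
      (eventually_ge_atTop (1 : ℝ))).mono ?_
    rintro X ⟨h1, h2⟩
    have h3 := Real.log_nonneg h2
    linarith

end Pool.Agent.Results.MP_696deb_nt.AnalyticRankLaw
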