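import Pool.Agent.W524.RY.Fin

/-!
# A numerical form of the conjecture of Birch and Swinnerton-Dyer equivalent to its rank form

Let `C : y² = x³ + a x + b` be an elliptic curve over `ℚ`, `a, b ∈ ℤ`, let `N_p` be the number of
affine points modulo the good primes `p ∤ 2Δ`, and let `F` be the entire continuation of the incomplete
`L`-series. Birch and Swinnerton-Dyer were led to their conjecture by the growth of the products
`∏_{p ≤ X} (N_p + 1)/p`. Goldfeld (1982) proved that the asymptotic formula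
`∏_{p ≤ X} (N_p + 1)/p ~ A (log X)^ρ` implies the Riemann hypothesis for `F`, so that the original numerical
form is much stronger than the rank form `ord_{s=1} F = rank C(ℚ)`. Known smoothed versions
still exclude real zeros `> 1`. Here is a numerical form which is EQUIVALENT to the rank form, for every
curve and without any hypothesis on zeros.

For a real number `τ` put

`W_τ(X) = ∑_{p ∤ 2Δ} log ((N_p + 1)/p) / Γ(1 + (1 + iτ) log p / log X)`,

an absolutely convergent series for every `X > 1`; its real part is the logarithm of the product of the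
`((N_p + 1)/p) ^ ω` with the explicit real weights `ω = Re 1/Γ(1 + (1 + iτ) log p / log X)`. Then:

* if `F` has no zeros on the ray `{1 + (1 + iτ) x : x > 0}`, then
  `W_τ(X) = r log log X + O(1)`, `r = ord_{s=1} F`. For every `B` this is the case for all but finitely many
  `τ` in `[-B, B]`;
* if `F` has a zero on the ray, `1 + (1 + iτ) x` the one with the largest `x`, of multiplicity `m`, then
  `W_τ(X) ~ m ∫_0^∞ (X^{xu} - 1) du / (u Γ(1 + u))`, and `Re W_τ(X) ≥ exp (X^c)` for `c < x` and large `X`.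

So `Re W_τ(X) / log log X` has a limit in `{r, ∞}` for every `τ`, and it is `r` for all but finitely
many `τ` in any bounded interval. Hence the rank form holds for `C` if and only if
`Re W_τ(X_n) / log log X_n → rank C(ℚ)` for one `τ` and one sequence `X_n → ∞`, and then
`W_τ(X) = rank log log X + O(1)` in all free directions.

Proof. By Hankel's formula (for complex arguments) `W_τ(X)` is an integral of
`exp (exp z) log L(C, 1 + (1 + iτ) z / log X)` over the boundary of a half strip of width `2π`, so that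
`1 + (1 + iτ) z / log X` runs through a thin strip around the ray. In this strip the vertical side is shifted to
the last zero on the ray, or to `1`. The passage from `L(C, s)` to the numbers `(N_p + 1)/p` uses Hasse's bound and
the pole of the zeta function only.
-/

set_option autoImplicit false

namespace Pool.Agent.Results.MP_696deb_nt.ExactCriterion

open Pool.Agent.W263.BSD Filter Topology Classical

/-- The term of `W_τ(X)` at `p`. -/
noncomputable def rotTerm (a b : ℤ) (τ X : ℝ) (p : ℕ) : ℂ :=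
  if GoodPrime a b p then
    (Real.log (((pointCount a b p : ℝ) + 1) / p) : ℂ) /
      Complex.Gamma (1 + (1 + τ * Complex.I) * (Real.log p / Real.log X)) else 0

/-- `W_τ(X)`. -/
noncomputable def rotSum (a b : ℤ) (τ X : ℝ) : ℂ := ∑' p : ℕ, rotTerm a b τ X p

/-- `F` has a zero on the ray `{1 + (1 + iτ) x : x > 0}`. -/
def Blocked (F : ℂ → ℂ) (τ : ℝ) : Prop :=
  ∃ x : ℝ, 0 < x ∧ F (1 + (1 + τ * Complex.I) * x) = 0

/-- `∫_0^∞ (e^{yu} - 1) / (u Γ(1 + u)) du`. -/
noncomputable def grow (y : ℝ) : ℝ :=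
  ∫ u in Set.Ioi (0 : ℝ), (Real.exp (y * u) - 1) / (u * Real.Gamma (1 + u))

/-- The rank of the group of rational points of `y² = x³ + a x + b`. -/
noncomputable def rank (a b : ℤ) : ℕ :=
  Module.finrank ℤ
    (WeierstrassCurve.Affine.Point
      (WeierstrassCurve.toAffine
        ({ a₁ := 0, a₂ := 0, a₃ := 0, a₄ := (a : ℚ), a₆ := (b : ℚ) } : WeierstrassCurve ℚ)))

theorem loglog_tendsto : Tendsto (fun X : ℝ => Real.log (Real.log X)) atTop atTop :=
  Real.tendsto_log_atTop.comp Real.tendsto_log_atTop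

theorem quot_of_bdd {f : ℝ → ℂ} {r M : ℝ}
    (h : ∀ᶠ X : ℝ in atTop, ‖f X - r * (Real.log (Real.log X) : ℂ)‖ ≤ M) :
    Tendsto (fun X : ℝ => (f X).re / Real.log (Real.log X)) atTop (𝓝 r) := by
  rw [tendsto_iff_norm_sub_tendsto_zero]
  refine squeeze_zero' (g := fun X => M * (Real.log (Real.log X))⁻¹)
    (Eventually.of_forall fun X => norm_nonneg _) ?_ ?_
  · filter_upwards [h, loglog_tendsto.eventually (eventually_gt_atTop 0)] with X h5 h6
    have h7 : (f X).re / Real.log (Real.log X) - r =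
        (f X - r * (Real.log (Real.log X) : ℂ)).re * (Real.log (Real.log X))⁻¹ := by
      have : (f X - r * (Real.log (Real.log X) : ℂ)).re = (f X).re - r * Real.log (Real.log X) := by
        rw [Complex.sub_re, ← Complex.ofReal_mul, Complex.ofReal_re]
      rw [this]
      field_simp
    rw [h7, norm_mul, Real.norm_eq_abs, Real.norm_eq_abs, abs_inv, abs_of_pos h6]
    exact mul_le_mul_of_nonneg_right ((Complex.abs_re_le_norm _).trans h5) (inv_nonneg.2 h6.le)
  · have := loglog_tendsto.inv_tendsto_atTop.const_mul M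
    simpa using this

theorem quot_of_big {f : ℝ → ℂ} {c : ℝ} (hc : 0 < c)
    (h : ∀ᶠ X : ℝ in atTop, Real.exp (X ^ c) ≤ (f X).re) :
    Tendsto (fun X : ℝ => (f X).re / Real.log (Real.log X)) atTop atTop := by
  have h6 : Tendsto (fun X : ℝ => X ^ c / Real.log X) atTop atTop := by
    have h7 : (fun X : ℝ => Real.log X) =o[atTop] fun X => X ^ c := isLittleO_log_rpow_atTop hc
    have h8 : Tendsto (fun X : ℝ => Real.log X / X ^ c) atTop (𝓝[>] 0) := by
      rw [tendsto_nhdsWithin_iff]
      refine ⟨h7.tendsto_div_nhds_zero, ?_⟩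
      filter_upwards [eventually_gt_atTop 1] with X hX
      have := Real.log_pos hX
      have : (0 : ℝ) < X ^ c := Real.rpow_pos_of_pos (by linarith) _
      show (0 : ℝ) < _
      positivity
    have h9 := h8.inv_tendsto_nhdsGT_zero
    refine h9.congr fun X => ?_
    rw [Pi.inv_apply, inv_div]
  refine tendsto_atTop_mono' _ ?_ h6
  filter_upwards [h, eventually_ge_atTop (3 : ℝ), loglog_tendsto.eventually (eventually_gt_atTop 0)]
    with X h10 h11 h12
  have h13 : 0 < Real.log X := Real.log_pos (by linarith)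
  have h14 : Real.log (Real.log X) ≤ Real.log X :=
    (Real.log_le_sub_one_of_pos h13).trans (by linarith)
  have h15 : X ^ c ≤ (f X).re := by
    have := Real.add_one_le_exp (X ^ c)
    linarith
  have h16 : 0 ≤ X ^ c := Real.rpow_nonneg (by linarith) _
  calc X ^ c / Real.log X ≤ X ^ c / Real.log (Real.log X) := by gcongr
    _ ≤ _ := by gcongr

/-- **A numerical form of the conjecture which is equivalent to its rank form.** -/
theorem result (a b : ℤ) (_hΔ : 4 * a ^ 3 + 27 * b ^ 2 ≠ 0) (F : ℂ → ℂ) (hF : IsLSeries a b F) :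
    (∀ τ X : ℝ, 1 < X → Summable fun p : ℕ => ‖rotTerm a b τ X p‖) ∧
    (∀ B : ℝ, {τ : ℝ | |τ| ≤ B ∧ Blocked F τ}.Finite) ∧
    (∃ r : ℕ, analyticOrderAt F 1 = r ∧ ∀ τ : ℝ, ¬ Blocked F τ →
      ∃ M : ℝ, ∀ᶠ X : ℝ in atTop, ‖rotSum a b τ X - r * Real.log (Real.log X)‖ ≤ M) ∧
    (∀ τ : ℝ, Blocked F τ → ∃ (x : ℝ) (m : ℕ), 0 < x ∧ 0 < m ∧
      analyticOrderAt F (1 + (1 + τ * Complex.I) * x) = m ∧
      (∀ y : ℝ, x < y → F (1 + (1 + τ * Complex.I) * y) ≠ 0) ∧
      Tendsto (fun X : ℝ => rotSum a b τ X / grow (x * Real.log X)) atTop (𝓝 m) ∧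
      ∀ c < x, ∀ᶠ X : ℝ in atTop, Real.exp (X ^ c) ≤ (rotSum a b τ X).re) ∧
    List.TFAE [
      analyticOrderAt F 1 = rank a b,
      ∃ (τ : ℝ) (X : ℕ → ℝ), Tendsto X atTop atTop ∧
        Tendsto (fun n => (rotSum a b τ (X n)).re / Real.log (Real.log (X n))) atTop (𝓝 (rank a b)),
      ∀ τ : ℝ, ¬ Blocked F τ →
        ∃ M : ℝ, ∀ᶠ X : ℝ in atTop, ‖rotSum a b τ X - rank a b * Real.log (Real.log X)‖ ≤ M] := by
  have hfin : ∀ B : ℝ, {τ : ℝ | |τ| ≤ B ∧ Blocked F τ}.Finite := W524.RY.blocked_finite hF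
  obtain ⟨r, hr⟩ := Pool.Agent.W189.ML.order_finite_all hF 1
  have hfree : ∀ τ : ℝ, ¬ Blocked F τ →
      ∃ M : ℝ, ∀ᶠ X : ℝ in atTop, ‖rotSum a b τ X - r * Real.log (Real.log X)‖ ≤ M :=
    fun τ hτ => W524.RY.free hF τ hr fun x hx h => hτ ⟨x, hx, h⟩
  have hblocked : ∀ τ : ℝ, Blocked F τ → ∃ (x : ℝ) (m : ℕ), 0 < x ∧ 0 < m ∧
      analyticOrderAt F (1 + (1 + τ * Complex.I) * x) = m ∧
      (∀ y : ℝ, x < y → F (1 + (1 + τ * Complex.I) * y) ≠ 0) ∧
      Tendsto (fun X : ℝ => rotSum a b τ X / grow (x * Real.log X)) atTop (𝓝 m) ∧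
      ∀ c < x, ∀ᶠ X : ℝ in atTop, Real.exp (X ^ c) ≤ (rotSum a b τ X).re := by
    intro τ hτ
    obtain ⟨x₀, h0, h1, hnz, hz⟩ := W524.RY.exists_last hF τ
    obtain ⟨m, hm⟩ := Pool.Agent.W189.ML.order_finite_all hF (1 + W524.RY.dir τ * x₀)
    have hx0 : 0 < x₀ := by
      obtain ⟨y, hy, hyz⟩ := hτ
      by_contra hc
      exact hnz y (by linarith) hyz
    have hz' : F (1 + W524.RY.dir τ * x₀) = 0 := by
      rcases hz with h | h
      · exact absurd h hx0.ne'
      · exact h
    obtain ⟨h2, h3⟩ := W524.RY.blocked hF τ hx0 h1 hm hz' hnz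
    have hm0 : 0 < m := by
      rw [Nat.pos_iff_ne_zero]
      intro h
      rw [h] at hm
      have : AnalyticAt ℂ F (1 + W524.RY.dir τ * x₀) := hF.1.analyticAt _
      exact (this.analyticOrderAt_eq_zero.1 (by simpa using hm)) hz'
    exact ⟨x₀, m, hx0, hm0, hm, hnz, h2, h3⟩
  have hexists : ∃ τ : ℝ, ¬ Blocked F τ := by
    by_contra hc
    push Not at hc
    have h1 := hfin 1
    have h2 : {τ : ℝ | |τ| ≤ 1 ∧ Blocked F τ} = Set.Icc (-1) 1 := by
      ext τ
      simp only [Set.mem_ofPred_eq, Set.mem_Icc, ← abs_le]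
      exact ⟨fun h => h.1, fun h => ⟨h, hc τ⟩⟩
    rw [h2] at h1
    exact (Set.Icc_infinite (by norm_num : (-1 : ℝ) < 1)) h1
  refine ⟨fun τ X hX => W524.RY.rot_summable τ hX, hfin, ⟨r, hr, hfree⟩, hblocked, ?_⟩
  tfae_have 1 → 3 := by
    intro h τ hτ
    have h1 : r = rank a b := by
      rw [hr] at h
      exact_mod_cast h
    rw [← h1]
    exact hfree τ hτ
  tfae_have 3 → 2 := by
    intro h
    obtain ⟨τ, hτ⟩ := hexists
    obtain ⟨M, hM⟩ := h τ hτ
    refine ⟨τ, fun n => n, tendsto_natCast_atTop_atTop, ?_⟩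
    have h1 := quot_of_bdd (f := rotSum a b τ) (r := rank a b) (M := M) (by
      simpa using hM)
    exact h1.comp tendsto_natCast_atTop_atTop
  tfae_have 2 → 1 := by
    rintro ⟨τ, X, hX, h⟩
    by_cases hτ : Blocked F τ
    · exfalso
      obtain ⟨x, m, hx, -, -, -, -, h1⟩ := hblocked τ hτ
      have h2 := (quot_of_big (half_pos hx) (h1 (x / 2) (by linarith))).comp hX
      exact not_tendsto_nhds_of_tendsto_atTop h2 _ h
    · obtain ⟨M, hM⟩ := hfree τ hτ
      have h1 := (quot_of_bdd (f := rotSum a b τ) (r := r) (M := M) (by simpa using hM)).comp hX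
      have h2 := tendsto_nhds_unique h1 h
      rw [hr]
      have h3 : r = rank a b := by exact_mod_cast h2
      rw [h3]
  tfae_finish

end Pool.Agent.Results.MP_696deb_nt.ExactCriterion
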