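import Pool.Agent.W263.MS.EQFinal

/-!
# The original conjecture of Birch and Swinnerton-Dyer in mean square

Let `C : y² = x³ + a x + b` be an elliptic curve over `ℚ`, `a, b ∈ ℤ`, `g = rank C(ℚ)`, let `F(s) = L(C, s)` be
the (entire continuation of the) incomplete L-series, `r = ord_{s=1} F`, `c = |F^{(r)}(1)| / r!`, and let
`P(x) = ∏_{p ≤ x, p ∤ 2Δ} (N_p + 1) / p` be the products of Birch and Swinnerton-Dyer.  Their original
conjecture says `P(x) ~ A (log x)^g`.  Goldfeld (1982) showed that it implies the Riemann hypothesis for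
`L(C, s)` (no zeros with `Re s > 1`) and `r = g`, with `A = √2 e^{γ g} / c`.  The converse is not known:
the pointwise formula is deeper than the Riemann hypothesis (Kuo and Murty, Conrad).

Here the conjecture is considered IN MEAN SQUARE.  Let
`P*(x) = P(x) exp (∑_{√x < p ≤ x} (a_p² - 2p) / (2p²))`; by the theorem of Rankin and Selberg `P*(x)` is
asymptotically `P(x) / √2`, see Part 4.  It is proved, without any hypothesis, that

  `∫_2^∞ log² (P*(x) / (A (log x)^g)) dx/x < ∞` for some `A > 0`  if and only if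
  `log L(C, s) / s` belongs to the Hardy space `H²` of the half plane `Re s > 1` and `ord_{s=1} L(C, s) = g`,

and `A = e^{γ g} / c` in this case (Parts 1 and 2).  Already the much weaker condition
`(log X)⁻¹ ∫_2^X |log (P*(x) / (A (log x)^ρ))| dx/x → 0` implies the Riemann hypothesis, `r = ρ` and
`A = e^{γ ρ} / c` (Part 2); this generalises Goldfeld's theorem.  If `F` has polynomial growth in `Re s > 0`
(as it is known for all curves, by the functional equation), the Hardy space condition is the Riemann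
hypothesis, and Part 3 gives the equivalence of the Riemann hypothesis and `ord_{s=1} L(C, s) = rank C(ℚ)`
with the original conjecture in mean square, in the mean, outside of a set of finite logarithmic
measure (with a very weak upper bound), and with
`(log x)⁻¹ ∫_1^x log P(t) dt/t = g log log x + O(1)`.

The proof of the mean square bound uses Plancherel's formula on vertical lines, and, on the Riemann
hypothesis, an explicit inequality for `log L` between the zeros; the proof of the converse uses Landau's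
lemma and Tauberian theorems of Karamata's type.  Everything is proved in the imported files.
-/

set_option autoImplicit false

namespace Pool.Agent.Results.MP_696deb_nt.MeanSquare

open MeasureTheory Filter Topology Set
open Pool.Agent.W263.BSD (pointCount GoodPrime IsLSeries order_finite bsdProduct bsdStar leadAbs
  lead_limit)
open Pool.Agent.W263.LG (productMean)
open Pool.Agent.W263.MS (FinLog offE RankinSelberg secondMoment HardyLog InL2 InMean
  OffFinLog)

/-- `|F(s)| ≤ C (1 + |s|)^A` for `Re s > 0`, for some `C` and `A`. -/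
def PolyGrowth (F : ℂ → ℂ) : Prop :=
  ∃ (C : ℝ) (A : ℕ), ∀ s : ℂ, 0 < s.re → ‖F s‖ ≤ C * (1 + ‖s‖) ^ A

/-- The Riemann hypothesis: `F` has no zeros with `Re s > 1`. -/
def RH (F : ℂ → ℂ) : Prop := ∀ s : ℂ, 1 < s.re → F s ≠ 0

/-- For some `k`: `R_k(x) ≤ x^ε` for all `ε > 0` and large `x`. -/
def SubPower (a b : ℤ) : Prop :=
  ∃ k : ℕ, ∀ ε : ℝ, 0 < ε → ∀ᶠ x : ℝ in atTop, productMean a b k x ≤ x ^ ε

/-- The rank of the group `C(ℚ)` of `C : y² = x³ + a x + b`. -/
noncomputable def mwRank (a b : ℤ) : ℕ :=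
  Module.finrank ℤ (WeierstrassCurve.Affine.Point (WeierstrassCurve.toAffine
    ({ a₁ := 0, a₂ := 0, a₃ := 0, a₄ := (a : ℚ), a₆ := (b : ℚ) } : WeierstrassCurve ℚ)))

/-- **The original conjecture of Birch and Swinnerton-Dyer in mean square.** -/
theorem result (a b : ℤ) (hΔ : 4 * a ^ 3 + 27 * b ^ 2 ≠ 0) (F : ℂ → ℂ) (hF : IsLSeries a b F) :
    ((∃ A : ℝ, 0 < A ∧ InL2 (bsdStar a b) (mwRank a b) A) ↔
      HardyLog 1 F ∧ analyticOrderAt F 1 = (mwRank a b : ℕ∞)) ∧
    (∃ r : ℕ, analyticOrderAt F 1 = r ∧ 0 < leadAbs F r ∧ ∀ ρ A : ℝ, 0 < A →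
      (InL2 (bsdStar a b) ρ A ↔ HardyLog 1 F ∧ (r : ℝ) = ρ ∧
        A = Real.exp (ρ * Real.eulerMascheroniConstant) / leadAbs F r) ∧
      (InMean (bsdStar a b) ρ A → RH F ∧ (r : ℝ) = ρ ∧
        A = Real.exp (ρ * Real.eulerMascheroniConstant) / leadAbs F r)) ∧
    (PolyGrowth F →
      (HardyLog 1 F ↔ RH F) ∧
      List.TFAE [
        RH F ∧ analyticOrderAt F 1 = (mwRank a b : ℕ∞),
        ∃ A : ℝ, 0 < A ∧ InL2 (bsdStar a b) (mwRank a b) A,
        ∃ A : ℝ, 0 < A ∧ InMean (bsdStar a b) (mwRank a b) A,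
        SubPower a b ∧ ∃ A : ℝ, 0 < A ∧ OffFinLog (bsdStar a b) (mwRank a b) A,
        ∃ C : ℝ, ∀ᶠ x : ℝ in atTop,
          |productMean a b 1 x - mwRank a b * Real.log (Real.log x)| ≤ C] ∧
      (RH F ∧ analyticOrderAt F 1 ≤ (mwRank a b : ℕ∞) ↔ ∃ C : ℝ, ∀ᶠ x : ℝ in atTop,
        productMean a b 1 x ≤ mwRank a b * Real.log (Real.log x) + C)) ∧
    (RankinSelberg a b → ∀ ρ A : ℝ, 0 < A →
      (InL2 (bsdProduct a b) ρ (√2 * A) ↔ InL2 (bsdStar a b) ρ A) ∧
      (InMean (bsdProduct a b) ρ (√2 * A) ↔ InMean (bsdStar a b) ρ A) ∧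
      (OffFinLog (bsdProduct a b) ρ (√2 * A) ↔ OffFinLog (bsdStar a b) ρ A)) := by
  obtain ⟨r, hr⟩ := order_finite hF
  obtain ⟨hpos, _⟩ := lead_limit hF.1 hr
  have hQ := Pool.Agent.W263.MS.qdata_star (a := a) (b := b) hΔ
  have hms : ∀ ρ A : ℝ, 0 < A →
      (InL2 (bsdStar a b) ρ A ↔ HardyLog 1 F ∧ (r : ℝ) = ρ ∧
        A = Real.exp (ρ * Real.eulerMascheroniConstant) / leadAbs F r) ∧
      (InMean (bsdStar a b) ρ A → RH F ∧ (r : ℝ) = ρ ∧
        A = Real.exp (ρ * Real.eulerMascheroniConstant) / leadAbs F r) := by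
    intro ρ A hA
    have h := Pool.Agent.W263.MS.eq_hardy hΔ hF hr hQ ρ hA
    rw [Real.exp_zero, one_mul] at h
    exact h
  set g := mwRank a b with hg
  have hord : analyticOrderAt F 1 = (g : ℕ∞) ↔ (r : ℝ) = (g : ℝ) := by
    rw [hr]
    constructor
    · intro h
      have h3 : r = g := by exact_mod_cast h
      rw [h3]
    · intro h
      have h3 : r = g := by exact_mod_cast h
      rw [h3]
  have hordle : analyticOrderAt F 1 ≤ (g : ℕ∞) ↔ (r : ℝ) ≤ (g : ℝ) := by
    rw [hr]
    constructor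
    · intro h
      have h3 : r ≤ g := by exact_mod_cast h
      exact_mod_cast h3
    · intro h
      have h3 : r ≤ g := by exact_mod_cast h
      exact_mod_cast h3
  have hA0 : 0 < Real.exp ((g : ℝ) * Real.eulerMascheroniConstant) / leadAbs F r := by
    positivity
  refine ⟨⟨?_, ?_⟩, ⟨r, hr, hpos, hms⟩, fun hG => ?_, fun hRS ρ A hA => ?_⟩
  · rintro ⟨A, hA, h⟩
    obtain ⟨h1, h2, _⟩ := (hms g A hA).1.mp h
    exact ⟨h1, hord.mpr h2⟩
  · rintro ⟨h1, h2⟩
    exact ⟨_, hA0, (hms g _ hA0).1.mpr ⟨h1, hord.mp h2, rfl⟩⟩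
  · have hfirst := Pool.Agent.W263.MS.eq_first hΔ hF hr (by
      obtain ⟨C, A, hC⟩ := hG; exact ⟨C, A, fun s hs => hC s (by linarith)⟩)
    refine ⟨Pool.Agent.W263.MS.hardy_iff_rh hΔ hF hG, ?_, ?_⟩
    · have key : ∀ A : ℝ, 0 < A → List.TFAE [
          RH F ∧ (r : ℝ) = g ∧
            A = Real.exp ((g : ℝ) * Real.eulerMascheroniConstant) / leadAbs F r,
          InL2 (bsdStar a b) g A,
          InMean (bsdStar a b) g A,
          SubPower a b ∧ OffFinLog (bsdStar a b) g A] := by
        intro A hA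
        have h := Pool.Agent.W263.MS.eq_growth hΔ hF hr hG hQ (g : ℝ) hA
        rw [Real.exp_zero, one_mul] at h
        exact h
      tfae_have 1 → 2 := by
        rintro ⟨h1, h2⟩
        have k := (key _ hA0).out 0 1
        exact ⟨_, hA0, k.mp ⟨h1, hord.mp h2, rfl⟩⟩
      tfae_have 2 → 3 := by
        rintro ⟨A, hA, h⟩
        have k := (key A hA).out 1 2
        exact ⟨A, hA, k.mp h⟩
      tfae_have 3 → 4 := by
        rintro ⟨A, hA, h⟩
        have k := (key A hA).out 2 3
        exact ⟨(k.mp h).1, A, hA, (k.mp h).2⟩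
      tfae_have 4 → 1 := by
        rintro ⟨h, A, hA, h'⟩
        have k := (key A hA).out 3 0
        have k1 := k.mp ⟨h, h'⟩
        exact ⟨k1.1, hord.mpr k1.2.1⟩
      tfae_have 1 ↔ 5 := by
        rw [hord]
        exact (hfirst g).2.1
      tfae_finish
    · rw [hordle]
      exact (hfirst g).1
  · have hQP := Pool.Agent.W263.MS.qdata_P hΔ hRS
    have hfin := Pool.Agent.W263.MN.bad_finite (a := a) (b := b) hΔ
    obtain ⟨Bs, hBs⟩ : ∃ Bs : Finset Nat.Primes, ∀ p : Nat.Primes,
        p ∈ Bs ↔ ¬ GoodPrime a b (p : ℕ) := ⟨hfin.toFinset, fun p => by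
      rw [Set.Finite.mem_toFinset]; rfl⟩
    obtain ⟨s1, s2, s3⟩ := Pool.Agent.W263.MS.qconv hBs hQ ρ hA
    obtain ⟨p1, p2, p3⟩ := Pool.Agent.W263.MS.qconv hBs hQP ρ (A := √2 * A) (by positivity)
    have e : 1 / 2 * Real.log 2 - Real.log (√2 * A) + ρ * Real.eulerMascheroniConstant =
        0 - Real.log A + ρ * Real.eulerMascheroniConstant := by
      rw [Real.log_mul (by positivity) hA.ne', Real.log_sqrt (by norm_num)]
      ring
    rw [e] at p1 p2 p3
    exact ⟨p1.symm.trans s1, p2.symm.trans s2,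
      exists_congr fun E' => and_congr_right fun _ => (p3 E').symm.trans (s3 E')⟩

end Pool.Agent.Results.MP_696deb_nt.MeanSquare
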