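import Pool.Agent.W524.DY.NF

/-!
# One-sided laws of Birch and Swinnerton-Dyer

Let `K` be a number field (for example `ℚ`), `E : y² = x³ + a x + b` an elliptic curve, `a, b ∈ 𝓞 K` (every
elliptic curve over `K` has such an equation), and let
`P(x) = ∏_{q_v ≤ x} (N_v + 1) / q_v` be the product over the primes `v ∤ 2(4a³ + 27b²)` of norm `q_v ≤ x`,
`N_v` the number of affine points of `E` over the residue field. Suppose that the `L`-series has an
entire continuation `F` (for `K = ℚ` this is the modularity theorem) and let `r = ord_{s=1} F`.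

Birch and Swinnerton-Dyer expected `P(x) ~ A (log x)^rank`. Goldfeld (1982, `K = ℚ`) showed that an
asymptotic formula `P(x) ~ A (log x)^ρ` implies `ρ = r` and the Riemann hypothesis for `F`; Kuo and Murty,
and Conrad (2005) characterised the asymptotic formula by two-sided conditions of growth. We show that
one-sided information is enough, on the shortest natural windows and over every number field:

* `P(x)` has the exact order of magnitude `(log x)^r` if and only if, for one `l > 1`, it does not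
  increase by more than a constant factor between `x` and `l x`; if and only if `F` has no real zeros
  `s > 1` and, for one `l > 1`, `P` does not decrease by more than a constant factor between `x` and `l x`.
  In this case the Riemann hypothesis holds for `F`, and the rank form of the conjecture holds
  if and only if `P(x)` has the exact order `(log x)^rank`;
* a bound `P(x) ≤ C (log x)^κ` for large `x` implies the Riemann hypothesis for `F`, `r ≤ κ`, the mean
  growth exponent of `P` is `r`, and `∫_x^{2x} |log P(t) - r log log t| dt/t = O(log log x)`, with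
  `O(1)` if `κ = r`: an upper bound of the right order is an asymptotic law in the mean on
  dyadic intervals;
* without any hypothesis the upper growth exponent of `P` is at least `r`, and the lower one is at most
  `r` if `F` has no real zeros `s > 1`, both up to constant factors.

The tool for the windows is a one-sided Tauberian theorem which uses the continuation of the Laplace
transform of `log P(e^u)` to a neighbourhood of `0` only (`Pool.Agent.W524.DY.Tb`, built on
`Pool.Agent.W136.FR`).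
-/

set_option autoImplicit false

namespace Pool.Agent.Results.MP_696deb_nt.OneSidedWindows

open Filter Topology NumberField IsDedekindDomain

noncomputable section

variable {K : Type} [Field K] [NumberField K]

/-- The number of affine points of `y² = x³ + a x + b` over the residue field at `v`. -/
def pointCount (a b : 𝓞 K) (v : HeightOneSpectrum (𝓞 K)) : ℕ :=
  Nat.card {q : (𝓞 K ⧸ v.asIdeal) × (𝓞 K ⧸ v.asIdeal) //
    q.2 ^ 2 = q.1 ^ 3 + Ideal.Quotient.mk v.asIdeal a * q.1 + Ideal.Quotient.mk v.asIdeal b}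

/-- The primes not dividing `2 (4a³ + 27b²)`. -/
def GoodPrime (a b : 𝓞 K) (v : HeightOneSpectrum (𝓞 K)) : Prop :=
  2 * (4 * a ^ 3 + 27 * b ^ 2) ∉ v.asIdeal

open Classical in
/-- The Euler factor at `v`. -/
def eulerFactor (a b : 𝓞 K) (s : ℂ) (v : HeightOneSpectrum (𝓞 K)) : ℂ :=
  if GoodPrime a b v then
    (1 - ((Ideal.absNorm v.asIdeal : ℂ) - (pointCount a b v : ℂ)) * (Ideal.absNorm v.asIdeal : ℂ) ^ (-s) +
      (Ideal.absNorm v.asIdeal : ℂ) ^ (1 - 2 * s))⁻¹ else 1

/-- `F` is the entire continuation of the Euler product over the good primes. -/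
def IsLSeries (a b : 𝓞 K) (F : ℂ → ℂ) : Prop :=
  Differentiable ℂ F ∧ ∀ s : ℂ, 2 < s.re → HasProd (eulerFactor a b s) (F s)

/-- The product `P(x)` of `(N_v + 1) / q_v` over the finitely many good primes with `q_v ≤ x`. -/
def bsdProduct (a b : 𝓞 K) (x : ℝ) : ℝ :=
  ∏ᶠ v ∈ {v : HeightOneSpectrum (𝓞 K) | GoodPrime a b v ∧ (Ideal.absNorm v.asIdeal : ℝ) ≤ x},
    ((pointCount a b v : ℝ) + 1) / Ideal.absNorm v.asIdeal

/-- The logarithmic mean `(log x)⁻¹ ∫_1^x log P(t) dt/t`. -/
def logMean (a b : 𝓞 K) (x : ℝ) : ℝ :=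
  (∫ t in Set.Ioc 1 x, Real.log (bsdProduct a b t) / t) / Real.log x

/-- The deviation `∫_x^{2x} |log P(t) - m log log t| dt/t`. -/
def dev (a b : 𝓞 K) (m : ℕ) (x : ℝ) : ℝ :=
  ∫ t in Set.Ioc x (2 * x), |Real.log (bsdProduct a b t) - m * Real.log (Real.log t)| / t

open Classical in
/-- The rank of the group of `K`-rational points. -/
def rank (a b : 𝓞 K) : ℕ :=
  Module.finrank ℤ
    (WeierstrassCurve.Affine.Point
      (WeierstrassCurve.toAffine
        ({ a₁ := 0, a₂ := 0, a₃ := 0, a₄ := (a : K), a₆ := (b : K) } : WeierstrassCurve K)))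

/-- `P` is of exact order `(log x)^m`. -/
def ExactOrder (a b : 𝓞 K) (m : ℕ) : Prop :=
  ∃ c C : ℝ, 0 < c ∧ ∀ᶠ x : ℝ in atTop,
    c * Real.log x ^ m ≤ bsdProduct a b x ∧ bsdProduct a b x ≤ C * Real.log x ^ m

/-- For some `l > 1` and `C`: `P(y) ≤ C P(x)` for all large `x` and `x ≤ y ≤ l x`. -/
def UpperWindows (a b : 𝓞 K) : Prop :=
  ∃ l C : ℝ, 1 < l ∧ ∀ᶠ x : ℝ in atTop, ∀ y, x ≤ y → y ≤ l * x →
    bsdProduct a b y ≤ C * bsdProduct a b x

/-- For some `l > 1` and `C`: `P(x) ≤ C P(y)` for all large `x` and `x ≤ y ≤ l x`. -/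
def LowerWindows (a b : 𝓞 K) : Prop :=
  ∃ l C : ℝ, 1 < l ∧ ∀ᶠ x : ℝ in atTop, ∀ y, x ≤ y → y ≤ l * x →
    bsdProduct a b x ≤ C * bsdProduct a b y

theorem result (a b : 𝓞 K) (_hΔ : 4 * a ^ 3 + 27 * b ^ 2 ≠ 0) (F : ℂ → ℂ) (hF : IsLSeries a b F) :
    ∃ r : ℕ, analyticOrderAt F 1 = r ∧
    -- one-sided windows and the exact order of magnitude
    List.TFAE [
      ExactOrder a b r,
      UpperWindows a b,
      (∀ s : ℝ, 1 < s → F s ≠ 0) ∧ LowerWindows a b] ∧
    (UpperWindows a b →
      (∀ s : ℂ, 1 < s.re → F s ≠ 0) ∧ (r = rank a b ↔ ExactOrder a b (rank a b))) ∧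
    -- upper bounds
    (∀ κ C : ℝ, (∀ᶠ x : ℝ in atTop, bsdProduct a b x ≤ C * Real.log x ^ κ) →
      (∀ s : ℂ, 1 < s.re → F s ≠ 0) ∧ (r : ℝ) ≤ κ ∧
      Tendsto (fun x : ℝ => logMean a b x / Real.log (Real.log x)) atTop (𝓝 r) ∧
      (∃ C' : ℝ, ∀ᶠ x : ℝ in atTop, dev a b r x ≤ C' * Real.log (Real.log x)) ∧
      (κ = r → ∃ C' : ℝ, ∀ᶠ x : ℝ in atTop, dev a b r x ≤ C') ∧
      (r = rank a b ↔
        Tendsto (fun x : ℝ => logMean a b x / Real.log (Real.log x)) atTop (𝓝 (rank a b)))) ∧
    -- growth exponents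
    (∃ c : ℝ, 0 < c ∧ ∃ᶠ x : ℝ in atTop, c * Real.log x ^ r < bsdProduct a b x) ∧
    ((∀ s : ℝ, 1 < s → F s ≠ 0) →
      ∃ C : ℝ, ∃ᶠ x : ℝ in atTop, bsdProduct a b x < C * Real.log x ^ r) := by
  obtain ⟨α, G, B, D, hG⟩ := W524.DY.NF.bs' a b hF.1 hF.2
  obtain ⟨r, hr⟩ := D.order_finite hF.1
  refine ⟨r, hr, W524.DY.order_tfae D hG hF.1 hr, fun h => W524.DY.window_rank D hG hF.1 hr _ h,
    fun κ C h => ?_, D.upper' hF.1 hr, D.lower' hF.1 hr⟩
  obtain ⟨h1, h2, h3, h4⟩ := D.upper_rank hF.1 hr (rank a b) h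
  obtain ⟨h5, h6⟩ := W524.DY.dev_of_upper D hG hF.1 hr h
  exact ⟨h1, h2, h3, h5, h6, h4⟩

end

end Pool.Agent.Results.MP_696deb_nt.OneSidedWindows
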