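import Pool.Agent.W334.BSD.Main

/-!
# Iterated Gaussian averages of the Birch and Swinnerton-Dyer products

Let `C : y² = x³ + a x + b` be an elliptic curve over `ℚ`, `a, b ∈ ℤ`, and let
`P(e^t) = ∏_{p ≤ e^t, p ∤ 2Δ} (N_p + 1) / p` be the products of Birch and Swinnerton-Dyer. For a function
`f` on `(0, ∞)` let `(G f)(v)` be the average of `f` against the half Gaussian probability density
`e^{-t²/4v} / √(πv)`, `t > 0`, and let `A_k = G^k (log P(e^t))`, `k = 1, 2, …`.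

Goldfeld (1982) showed that a bound `|log P(e^t) - r log t| ≤ C` needs the whole Riemann hypothesis
for `L(C, s)` (and Conrad, Kuo and Murty that it says even more). Here we show that the averaged
quantities `A_k` see exactly what the Birch and Swinnerton-Dyer conjecture is about, the behaviour of
`L(C, s)` near `s = 1`, and nothing but the zeros in the sector
`S_k = {Re s > 1, |Im s| < tan(π / 2^{k+1}) (Re s - 1)}`, whose angle shrinks to `0`: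

* `A_k(v) ≤ c log v + O(1)` for `v ≥ 1` if and only if `L(C, s)` has no zero in `S_k` and
  `ord_{s=1} L(C, s) ≤ 2^k c`;
* `A_k(v) = c log v + O(1)` for `v ≥ 1` if and only if `L(C, s)` has no zero in `S_k` and
  `ord_{s=1} L(C, s) = 2^k c`;
* `A_k(v) = 2^{-k} rank C(ℚ) log v + O(1)` for some `k` (equivalently: for all large `k`) if and only if
  `L(C, s)` has no real zero `s > 1` and `ord_{s=1} L(C, s) = rank C(ℚ)`.

Everything (Hasse's bound, Mertens' bound, Landau's lemma for Laplace transforms, the transform of the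
Gaussian kernel, the estimate on a sector) is proved in the imported files.
-/

set_option autoImplicit false

namespace Pool.Agent.Results.MP_696deb_nt.ZGaussianAverages

open Classical MeasureTheory

noncomputable section

/-- The number of affine points of `y² = x³ + a x + b` over `ℤ/p`. -/
def pointCount (a b : ℤ) (p : ℕ) : ℕ :=
  Nat.card {q : ZMod p × ZMod p // q.2 ^ 2 = q.1 ^ 3 + (a : ZMod p) * q.1 + (b : ZMod p)}

/-- The primes not dividing `2Δ`. -/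
def GoodPrime (a b : ℤ) (p : ℕ) : Prop := p.Prime ∧ ¬ ((p : ℤ) ∣ 2 * (-4 * a ^ 3 - 27 * b ^ 2))

/-- `F` is an entire function continuing the incomplete L-series of `y² = x³ + a x + b`. -/
def IsLSeries (a b : ℤ) (F : ℂ → ℂ) : Prop :=
  Differentiable ℂ F ∧ ∀ s : ℂ, (3 : ℝ) / 2 < s.re →
    HasProd (fun p : ℕ => if GoodPrime a b p then
      (1 - ((p : ℂ) - (pointCount a b p : ℂ)) * (p : ℂ) ^ (-s) + (p : ℂ) ^ (1 - 2 * s))⁻¹ else 1) (F s)

/-- `log P(e^t) = ∑_{p ≤ e^t, p good} log ((N_p + 1)/p)`. -/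
def logProd (a b : ℤ) (t : ℝ) : ℝ :=
  ∑ p ∈ (Finset.range (⌊Real.exp t⌋₊ + 1)).filter (GoodPrime a b),
    Real.log (((pointCount a b p : ℝ) + 1) / p)

/-- The average of `f` against the density `e^{-t²/4v} / √(πv)` on `t > 0`. -/
def gaussAvg (f : ℝ → ℝ) (v : ℝ) : ℝ :=
  ∫ t in Set.Ioi (0 : ℝ), f t * (Real.exp (-(t ^ 2 / (4 * v))) / Real.sqrt (Real.pi * v))

/-- The open sector with vertex `1`, symmetric about the real axis, of half angle `π / 2^(k+1)`. -/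
def sector (k : ℕ) : Set ℂ :=
  {s | 1 < s.re ∧ |s.im| < Real.tan (Real.pi / 2 ^ (k + 1)) * (s.re - 1)}

/-- The rank of the group of rational points. -/
def rank (a b : ℤ) : ℕ :=
  Module.finrank ℤ
    (WeierstrassCurve.Affine.Point
      (WeierstrassCurve.toAffine
        ({ a₁ := 0, a₂ := 0, a₃ := 0, a₄ := (a : ℚ), a₆ := (b : ℚ) } : WeierstrassCurve ℚ)))

lemma logProd_eq (a b : ℤ) : logProd a b = W334.BSD.lgP a b := rfl

lemma gaussAvg_eq : gaussAvg = W334.BSD.gaussAvg := rfl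

lemma mem_sector_iff (k : ℕ) (s : ℂ) : s ∈ sector k ↔ s - 1 ∈ W334.BSD.Sec k := by
  unfold sector W334.BSD.Sec
  simp only [Set.mem_ofPred_eq, Complex.sub_re, Complex.one_re, Complex.sub_im, Complex.one_im, sub_zero,
    sub_pos]

lemma zerofree_iff (k : ℕ) (F : ℂ → ℂ) :
    (∀ s ∈ W334.BSD.Sec k, F (1 + s) ≠ 0) ↔ ∀ s ∈ sector k, F s ≠ 0 := by
  constructor
  · intro h s hs
    have := h (s - 1) ((mem_sector_iff k s).1 hs)
    rwa [add_sub_cancel] at this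
  · intro h s hs
    apply h
    rw [mem_sector_iff, add_sub_cancel_left]
    exact hs

/-- Let `F` be the entire continuation of the incomplete L-series of `y² = x³ + a x + b` and `A_k(v)` the
`k`-th iterated Gaussian average of `t ↦ ∑_{p ≤ e^t, p good} log ((N_p + 1)/p)`.
(1) For `k ≥ 1` and real `c`, `A_k(v) ≤ c log v + O(1)` for `v ≥ 1` iff `F` has no zeros in the sector
`S_k` and its order at `s = 1` is at most `2^k c`.
(2) For `k ≥ 1` and real `c`, `A_k(v) = c log v + O(1)` for `v ≥ 1` iff `F` has no zeros in `S_k` and its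
order at `s = 1` equals `2^k c`.
(3) The following are equivalent: `F` has no real zeros `> 1` and its order at `s = 1` is the rank;
`A_k(v) = 2^{-k} rank log v + O(1)` for some `k ≥ 1`; the same for all large `k`. -/
theorem result (a b : ℤ) (_hΔ : 4 * a ^ 3 + 27 * b ^ 2 ≠ 0) (F : ℂ → ℂ) (hF : IsLSeries a b F) :
    (∀ k : ℕ, 1 ≤ k → ∀ c : ℝ,
      ((∃ M : ℝ, ∀ v : ℝ, 1 ≤ v → gaussAvg^[k] (logProd a b) v ≤ c * Real.log v + M) ↔
        (∀ s ∈ sector k, F s ≠ 0) ∧ ∃ r : ℕ, analyticOrderAt F 1 = r ∧ (r : ℝ) ≤ 2 ^ k * c)) ∧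
    (∀ k : ℕ, 1 ≤ k → ∀ c : ℝ,
      ((∃ M : ℝ, ∀ v : ℝ, 1 ≤ v → |gaussAvg^[k] (logProd a b) v - c * Real.log v| ≤ M) ↔
        (∀ s ∈ sector k, F s ≠ 0) ∧ ∃ r : ℕ, analyticOrderAt F 1 = r ∧ (r : ℝ) = 2 ^ k * c)) ∧
    (((∀ x : ℝ, 1 < x → F x ≠ 0) ∧ analyticOrderAt F 1 = (rank a b : ℕ∞)) ↔
      ∃ k : ℕ, 1 ≤ k ∧ ∃ M : ℝ, ∀ v : ℝ, 1 ≤ v →
        |gaussAvg^[k] (logProd a b) v - (rank a b / 2 ^ k : ℝ) * Real.log v| ≤ M) ∧
    (((∀ x : ℝ, 1 < x → F x ≠ 0) ∧ analyticOrderAt F 1 = (rank a b : ℕ∞)) ↔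
      ∃ k₀ : ℕ, 1 ≤ k₀ ∧ ∀ k : ℕ, k₀ ≤ k → ∃ M : ℝ, ∀ v : ℝ, 1 ≤ v →
        |gaussAvg^[k] (logProd a b) v - (rank a b / 2 ^ k : ℝ) * Real.log v| ≤ M) := by
  obtain ⟨hd, hprod⟩ := hF
  obtain ⟨C, hC⟩ := W334.BSD.tame_lgP a b
  obtain ⟨D, hD⟩ := W334.BSD.tame_bQ a b
  obtain ⟨E, hE⟩ := W334.BSD.lgP_close a b
  have hd' : Differentiable ℂ (fun q : ℂ => F (1 + q)) := hd.comp (by fun_prop)
  have hFB : ∀ s : ℂ, 1 < s.re →
      F (1 + s) = Complex.exp (s * W334.BSD.LT (W334.BSD.bQ a b) s) := by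
    intro s hs
    refine W334.BSD.Lseries_eq a b hs ?_
    exact hprod (1 + s) (by rw [Complex.add_re, Complex.one_re]; linarith)
  have h1 : ∀ k : ℕ, 1 ≤ k → ∀ c : ℝ,
      ((∃ M : ℝ, ∀ v : ℝ, 1 ≤ v → gaussAvg^[k] (logProd a b) v ≤ c * Real.log v + M) ↔
        (∀ s ∈ sector k, F s ≠ 0) ∧ ∃ r : ℕ, analyticOrderAt F 1 = r ∧ (r : ℝ) ≤ 2 ^ k * c) := by
    intro k hk c
    rw [gaussAvg_eq, logProd_eq, W334.BSD.upper_iff hC hD hE hd' hFB hk c, W334.BSD.order_shift hd,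
      zerofree_iff]
  have h2 : ∀ k : ℕ, 1 ≤ k → ∀ c : ℝ,
      ((∃ M : ℝ, ∀ v : ℝ, 1 ≤ v → |gaussAvg^[k] (logProd a b) v - c * Real.log v| ≤ M) ↔
        (∀ s ∈ sector k, F s ≠ 0) ∧ ∃ r : ℕ, analyticOrderAt F 1 = r ∧ (r : ℝ) = 2 ^ k * c) := by
    intro k hk c
    rw [gaussAvg_eq, logProd_eq, W334.BSD.eq_iff hC hD hE hd' hFB hk c, W334.BSD.order_shift hd,
      zerofree_iff]
  have h3 : ∀ k : ℕ, 1 ≤ k → (∃ M : ℝ, ∀ v : ℝ, 1 ≤ v →
      |gaussAvg^[k] (logProd a b) v - (rank a b / 2 ^ k : ℝ) * Real.log v| ≤ M) →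
      ((∀ x : ℝ, 1 < x → F x ≠ 0) ∧ analyticOrderAt F 1 = (rank a b : ℕ∞)) := by
    intro k hk h
    obtain ⟨h4, r, hr, hrc⟩ := (h2 k hk _).1 h
    refine ⟨fun x hx => h4 x ?_, ?_⟩
    · rw [mem_sector_iff, show (x : ℂ) - 1 = ((x - 1 : ℝ) : ℂ) by push_cast; ring]
      exact W334.BSD.ofReal_mem_Sec k hk (by linarith)
    · rw [hr]
      have h5 : (r : ℝ) = rank a b := by rw [hrc]; field_simp
      exact_mod_cast h5
  have h4 : ((∀ x : ℝ, 1 < x → F x ≠ 0) ∧ analyticOrderAt F 1 = (rank a b : ℕ∞)) →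
      ∃ k₀ : ℕ, 1 ≤ k₀ ∧ ∀ k : ℕ, k₀ ≤ k → ∃ M : ℝ, ∀ v : ℝ, 1 ≤ v →
        |gaussAvg^[k] (logProd a b) v - (rank a b / 2 ^ k : ℝ) * Real.log v| ≤ M := by
    rintro ⟨h5, h6⟩
    obtain ⟨k₀, hk0, hk⟩ := W334.BSD.narrow (F := fun q => F (1 + q)) hd'
      (fun s hs => by rw [hFB s hs]; exact Complex.exp_ne_zero _)
      (fun x hx => by
        have := h5 (1 + x) (by linarith)
        push_cast at this
        exact this)
    refine ⟨k₀, hk0, fun k hkk => (h2 k (hk0.trans hkk) _).2 ⟨(zerofree_iff k F).1 (hk k hkk),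
      rank a b, h6, ?_⟩⟩
    field_simp
  refine ⟨h1, h2, ⟨fun h => ?_, fun ⟨k, hk, h⟩ => h3 k hk h⟩, ⟨h4, fun ⟨k₀, hk0, h⟩ =>
    h3 k₀ hk0 (h k₀ le_rfl)⟩⟩
  obtain ⟨k₀, hk0, hk⟩ := h4 h
  exact ⟨k₀, hk0, hk k₀ le_rfl⟩

end

end Pool.Agent.Results.MP_696deb_nt.ZGaussianAverages
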